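import Pool.Agent.U979.RG.Cplx

/-!
# Translated slopes

`F` is an algebraically closed field of characteristic zero, `K` an extension field, `S` a space over
`F` with the property of the six exponentials theorem and `Λ ≤ S` a rational space for which Baker's
theorem holds. Let `t` be not constant. Elements `l i` of `Λ` with `(t + α i) l i` in `Λ`, `α i` constant,
which satisfy a rational linear relation, satisfy one with all differences `α i - α j` of its indices
rational. The same for `β i t l i` and the quotients `β i / β j`.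
-/

set_option autoImplicit false

namespace Pool.Agent.U979.TS

open Finset Pool.Agent.U979.GX Pool.Agent.U979.RG

variable {F K : Type*} [Field F] [Field K] [Algebra F K] [CharZero K]

/-- a relation over the constants gives a rational relation, for any finite index type -/
theorem rat_dep' {S : Submodule F K} {Λ : Submodule ℚ K} (h : Sys S Λ) {ι : Type*} [Fintype ι]
    (v : ι → K) (hv : ∀ i, v i ∈ Λ) (c : ι → K) (hc : ∀ i, c i ∈ Cs F K)
    (h0 : ∑ i, c i * v i = 0) (hne : ∃ i, c i ≠ 0) :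
    ∃ q : ι → ℚ, (∃ i, q i ≠ 0) ∧ ∑ i, (q i : K) * v i = 0 := by
  classical
  let e := Fintype.equivFin ι
  obtain ⟨q, ⟨i, hi⟩, hq⟩ := rat_dep h (fun i => v (e.symm i)) (fun i => hv _)
    (fun i => c (e.symm i)) (fun i => hc _)
    (by rw [← h0]; exact Equiv.sum_comp e.symm fun i => c i * v i)
    (by obtain ⟨i, hi⟩ := hne; exact ⟨e i, by simpa using hi⟩)
  refine ⟨fun i => q (e i), ⟨e.symm i, by simpa using hi⟩, ?_⟩
  rw [← hq, ← Equiv.sum_comp e.symm]
  exact Finset.sum_congr rfl fun i _ => by simp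

/-- coordinates of elements of `Λ` are rational, for any finite index type -/
theorem rat_coord' {S : Submodule F K} {Λ : Submodule ℚ K} (h : Sys S Λ) {ι : Type*} [Fintype ι]
    (v : ι → K) (hv : ∀ i, v i ∈ Λ)
    (hind : ∀ c : ι → K, (∀ i, c i ∈ Cs F K) → ∑ i, c i * v i = 0 → ∀ i, c i = 0)
    {z : K} (hz : z ∈ Λ) (c : ι → K) (hc : ∀ i, c i ∈ Cs F K) (hzc : z = ∑ i, c i * v i) :
    ∀ i, IsRat (c i) := by
  classical
  let e := Fintype.equivFin ι
  have h1 := rat_coord h (fun i => v (e.symm i)) (fun i => hv _)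
    (fun d hd h0 i => by
      have h2 := hind (fun i => d (e i)) (fun i => hd _) (by
        rw [← h0, ← Equiv.sum_comp e.symm]
        exact Finset.sum_congr rfl fun i _ => by simp) (e.symm i)
      simpa using h2) hz (fun i => c (e.symm i)) (fun i => hc _)
    (by rw [hzc]; exact (Equiv.sum_comp e.symm fun i => c i * v i).symm)
  intro i
  simpa using h1 (e i)

/-- sums over a subtype -/
theorem sum_sub {n : ℕ} (s : Finset (Fin n)) (f : Fin n → K) (hf : ∀ i, i ∉ s → f i = 0) :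
    ∑ i, f i = ∑ i : s, f i := by
  rw [Finset.sum_coe_sort s f]
  exact (Finset.sum_subset (Finset.subset_univ s) fun i _ hi => hf i hi).symm

/-- a relation with minimal support -/
theorem minimal {n : ℕ} (l : Fin n → K)
    (hex : ∃ q : Fin n → ℚ, (∃ i, q i ≠ 0) ∧ ∑ i, (q i : K) * l i = 0) :
    ∃ (q : Fin n → ℚ) (i0 : Fin n), q i0 ≠ 0 ∧ ∑ i, (q i : K) * l i = 0 ∧
      ∀ r : Fin n → ℚ, (∀ i, r i ≠ 0 → q i ≠ 0 ∧ i ≠ i0) → ∑ i, (r i : K) * l i = 0 → ∀ i, r i = 0 := by
  classical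
  let P : ℕ → Prop := fun k => ∃ q : Fin n → ℚ, (∃ i, q i ≠ 0) ∧ ∑ i, (q i : K) * l i = 0 ∧
    (univ.filter fun i => q i ≠ 0).card = k
  have hP : ∃ k, P k := by
    obtain ⟨q, h1, h2⟩ := hex
    exact ⟨_, q, h1, h2, rfl⟩
  obtain ⟨q, ⟨i0, hi0⟩, h2, h3⟩ := Nat.find_spec hP
  refine ⟨q, i0, hi0, h2, fun r hr hr0 => ?_⟩
  by_contra hne
  push Not at hne
  have h4 : Nat.find hP ≤ (univ.filter fun i => r i ≠ 0).card :=
    Nat.find_min' hP ⟨r, hne, hr0, rfl⟩
  have h5 : (univ.filter fun i => r i ≠ 0).card < (univ.filter fun i => q i ≠ 0).card := by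
    refine Finset.card_lt_card ⟨?_, ?_⟩
    · intro i hi
      rw [Finset.mem_filter] at hi ⊢
      exact ⟨Finset.mem_univ _, (hr i hi.2).1⟩
    · intro hsub
      have h6 := hsub (Finset.mem_filter.mpr ⟨Finset.mem_univ i0, hi0⟩)
      exact (hr i0 (Finset.mem_filter.mp h6).2).2 rfl
  omega

/-- **Translated slopes.** -/
theorem add_rel {S : Submodule F K} {Λ : Submodule ℚ K} (h : Sys S Λ) {t : K} {n : ℕ}
    (l : Fin n → K) (hl : ∀ i, l i ∈ Λ) (α : Fin n → K) (hα : ∀ i, α i ∈ Cs F K)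
    (hm : ∀ i, (t + α i) * l i ∈ Λ)
    (hex : ∃ q : Fin n → ℚ, (∃ i, q i ≠ 0) ∧ ∑ i, (q i : K) * l i = 0) :
    ∃ q : Fin n → ℚ, (∃ i, q i ≠ 0) ∧ (∀ i j, q i ≠ 0 → q j ≠ 0 → IsRat (α i - α j)) ∧
      ∑ i, (q i : K) * l i = 0 := by
  classical
  obtain ⟨q, i0, hi0, hq, hmin⟩ := minimal l hex
  set s : Finset (Fin n) := univ.filter fun i => q i ≠ 0 ∧ i ≠ i0 with hs
  have hns : ∀ i, i ∉ s → q i = 0 ∨ i = i0 := by
    intro i hi
    by_contra hcon
    push Not at hcon
    exact hi (Finset.mem_filter.mpr ⟨Finset.mem_univ _, hcon⟩)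
  have hind : ∀ c : s → K, (∀ i, c i ∈ Cs F K) → ∑ i, c i * l i = 0 → ∀ i, c i = 0 := by
    intro c hc h0
    by_contra hne
    push Not at hne
    obtain ⟨r, ⟨k, hk⟩, hr⟩ := rat_dep' h (fun i : s => l i) (fun i => hl _) c hc h0 hne
    have h1 := hmin (fun i => if hi : i ∈ s then r ⟨i, hi⟩ else 0) (fun i hi => by
      by_cases his : i ∈ s
      · exact (Finset.mem_filter.mp his).2
      · simp only [dif_neg his, ne_eq, not_true_eq_false] at hi) (by
      rw [sum_sub s _ (fun i hi => by simp only [dif_neg hi, Rat.cast_zero, zero_mul]), ← hr]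
      exact Finset.sum_congr rfl fun i _ => by simp only [dif_pos i.2]) k
    rw [dif_pos k.2] at h1
    exact hk h1
  have hz : ∑ i, (q i : K) * ((t + α i) * l i) ∈ Λ := by
    refine Submodule.sum_mem _ fun i _ => ?_
    rw [← Rat.smul_def]
    exact Λ.smul_mem _ (hm i)
  have hzc : ∑ i, (q i : K) * ((t + α i) * l i) = ∑ i : s, ((q i : K) * (α i - α i0)) * l i := by
    rw [← sum_sub s (fun i => ((q i : K) * (α i - α i0)) * l i) (fun i hi => by
      rcases hns i hi with h1 | h1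
      · simp only [h1, Rat.cast_zero, zero_mul]
      · simp only [h1, sub_self, mul_zero, zero_mul])]
    have h1 : ∑ i, (q i : K) * ((t + α i) * l i) = (t + α i0) * ∑ i, (q i : K) * l i +
        ∑ i, ((q i : K) * (α i - α i0)) * l i := by
      rw [Finset.mul_sum, ← Finset.sum_add_distrib]
      exact Finset.sum_congr rfl fun i _ => by ring
    rw [h1, hq, mul_zero, zero_add]
  have hrat := rat_coord' h (fun i : s => l i) (fun i => hl _) hind hz
    (fun i : s => (q i : K) * (α i - α i0))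
    (fun i => (Cs F K).mul_mem (rat_mem_Cs _) ((Cs F K).sub_mem (hα _) (hα _))) hzc
  have hkey : ∀ i, q i ≠ 0 → IsRat (α i - α i0) := by
    intro i hi
    by_cases h1 : i = i0
    · rw [h1, sub_self]
      exact isRat_zero
    · have h2 := hrat ⟨i, Finset.mem_filter.mpr ⟨Finset.mem_univ _, hi, h1⟩⟩
      have h3 : (q i : K) ≠ 0 := by exact_mod_cast hi
      have h4 := h2.div (y := (q i : K)) ⟨q i, rfl⟩
      rwa [mul_div_cancel_left₀ _ h3] at h4
  refine ⟨q, ⟨i0, hi0⟩, fun i j hi hj => ?_, hq⟩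
  have h1 := (hkey i hi).sub (hkey j hj)
  rwa [sub_sub_sub_cancel_right] at h1

/-- **Multiplied slopes.** -/
theorem mul_rel {S : Submodule F K} {Λ : Submodule ℚ K} (h : Sys S Λ) {t : K} (ht : t ≠ 0) {n : ℕ}
    (l : Fin n → K) (hl : ∀ i, l i ∈ Λ) (β : Fin n → K) (hβ : ∀ i, β i ∈ Cs F K)
    (hβ0 : ∀ i, β i ≠ 0) (hm : ∀ i, β i * t * l i ∈ Λ)
    (hex : ∃ q : Fin n → ℚ, (∃ i, q i ≠ 0) ∧ ∑ i, (q i : K) * l i = 0) :
    ∃ q : Fin n → ℚ, (∃ i, q i ≠ 0) ∧ (∀ i j, q i ≠ 0 → q j ≠ 0 → IsRat (β i / β j)) ∧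
      ∑ i, (q i : K) * l i = 0 := by
  classical
  obtain ⟨q, i0, hi0, hq, hmin⟩ := minimal l hex
  set s : Finset (Fin n) := univ.filter fun i => q i ≠ 0 ∧ i ≠ i0 with hs
  have hns : ∀ i, i ∉ s → q i = 0 ∨ i = i0 := by
    intro i hi
    by_contra hcon
    push Not at hcon
    exact hi (Finset.mem_filter.mpr ⟨Finset.mem_univ _, hcon⟩)
  have hind : ∀ c : s → K, (∀ i, c i ∈ Cs F K) → ∑ i, c i * l i = 0 → ∀ i, c i = 0 := by
    intro c hc h0
    by_contra hne
    push Not at hne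
    obtain ⟨r, ⟨k, hk⟩, hr⟩ := rat_dep' h (fun i : s => l i) (fun i => hl _) c hc h0 hne
    have h1 := hmin (fun i => if hi : i ∈ s then r ⟨i, hi⟩ else 0) (fun i hi => by
      by_cases his : i ∈ s
      · exact (Finset.mem_filter.mp his).2
      · simp only [dif_neg his, ne_eq, not_true_eq_false] at hi) (by
      rw [sum_sub s _ (fun i hi => by simp only [dif_neg hi, Rat.cast_zero, zero_mul]), ← hr]
      exact Finset.sum_congr rfl fun i _ => by simp only [dif_pos i.2]) k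
    rw [dif_pos k.2] at h1
    exact hk h1
  have hind2 : ∀ c : s → K, (∀ i, c i ∈ Cs F K) → ∑ i, c i * (β i * t * l i) = 0 →
      ∀ i, c i = 0 := by
    intro c hc h0 i
    have h1 := hind (fun i => c i * β i) (fun i => (Cs F K).mul_mem (hc i) (hβ _)) (by
      have h2 : t * ∑ i, c i * β i * l i = 0 := by
        rw [Finset.mul_sum, ← h0]
        exact Finset.sum_congr rfl fun i _ => by ring
      exact (mul_eq_zero.mp h2).resolve_left ht) i
    exact (mul_eq_zero.mp h1).resolve_right (hβ0 _)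
  have hq0 : (q i0 : K) ≠ 0 := by exact_mod_cast hi0
  have hsum : (q i0 : K) * l i0 + ∑ i : s, (q i : K) * l i = 0 := by
    have h1 : ∑ i, (if i = i0 then (0 : K) else (q i : K) * l i) = ∑ i : s, (q i : K) * l i := by
      rw [sum_sub s _ (fun i hi => by
        rcases hns i hi with h1 | h1
        · rw [h1, Rat.cast_zero, zero_mul, ite_self]
        · rw [if_pos h1])]
      exact Finset.sum_congr rfl fun i _ => if_neg (Finset.mem_filter.mp i.2).2.2
    have h2 := Finset.add_sum_erase univ (fun i => (q i : K) * l i) (Finset.mem_univ i0)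
    have h3 := Finset.add_sum_erase univ (fun i => if i = i0 then (0 : K) else (q i : K) * l i)
      (Finset.mem_univ i0)
    have h4 : ∑ i ∈ univ.erase i0, (if i = i0 then (0 : K) else (q i : K) * l i) =
        ∑ i ∈ univ.erase i0, (q i : K) * l i :=
      Finset.sum_congr rfl fun i hi => if_neg (Finset.ne_of_mem_erase hi)
    rw [h4, h1] at h3
    simp only [if_true, zero_add] at h3
    rw [hq, h3] at h2
    exact h2
  have hzc : (q i0 : K) * (β i0 * t * l i0) =
      ∑ i : s, (-(q i : K) * (β i0 / β i)) * (β i * t * l i) := by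
    have h1 : ∑ i : s, (-(q i : K) * (β i0 / β i)) * (β i * t * l i) =
        -(β i0 * t) * ∑ i : s, (q i : K) * l i := by
      rw [Finset.mul_sum]
      refine Finset.sum_congr rfl fun i _ => ?_
      have h2 := hβ0 i
      field_simp
    rw [h1]
    linear_combination (β i0 * t) * hsum
  have hz : (q i0 : K) * (β i0 * t * l i0) ∈ Λ := by
    rw [← Rat.smul_def]
    exact Λ.smul_mem _ (hm i0)
  have hrat := rat_coord' h (fun i : s => β i * t * l i) (fun i => hm _) hind2 hz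
    (fun i : s => -(q i : K) * (β i0 / β i))
    (fun i => (Cs F K).mul_mem ((Cs F K).neg_mem (rat_mem_Cs _))
      ((Cs F K).div_mem (hβ _) (hβ _))) hzc
  have hkey : ∀ i, q i ≠ 0 → IsRat (β i0 / β i) := by
    intro i hi
    by_cases h1 : i = i0
    · rw [h1, div_self (hβ0 i0)]
      exact ⟨1, by push_cast; rfl⟩
    · have h2 := hrat ⟨i, Finset.mem_filter.mpr ⟨Finset.mem_univ _, hi, h1⟩⟩
      have h3 : -(q i : K) ≠ 0 := by
        rw [neg_ne_zero]
        exact_mod_cast hi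
      have h4 := h2.div (y := -(q i : K)) ⟨-q i, by push_cast; rfl⟩
      rwa [mul_div_cancel_left₀ _ h3] at h4
  refine ⟨q, ⟨i0, hi0⟩, fun i j hi hj => ?_, hq⟩
  have h1 := (hkey j hj).div (hkey i hi)
  rwa [div_div_div_cancel_left' _ _ (hβ0 i0)] at h1

/-- six exponentials: three elements are linearly dependent over the rational numbers -/
theorem six_dep {S : Submodule F K} {Λ : Submodule ℚ K} (h : Sys S Λ) {t : K} (ht : t ∉ Cs F K)
    (l : Fin 3 → K) (hl : ∀ i, l i ∈ Λ) (hm : ∀ i, t * l i ∈ S) :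
    ∃ q : Fin 3 → ℚ, (∃ i, q i ≠ 0) ∧ ∑ i, (q i : K) * l i = 0 := by
  have h1 : ¬ LinearIndependent F l := fun h2 => h.six t ht l h2 (fun i => h.sub _ (hl i)) hm
  rw [Fintype.linearIndependent_iff] at h1
  push Not at h1
  obtain ⟨g, hg, i, hi⟩ := h1
  refine rat_dep h l hl (fun i => algebraMap F K (g i)) (fun i => algebraMap_mem _) ?_
    ⟨i, fun h2 => hi ((map_eq_zero _).mp h2)⟩
  rw [← hg]
  exact Finset.sum_congr rfl fun i _ => by rw [Algebra.smul_def]

theorem add_six {S : Submodule F K} {Λ : Submodule ℚ K} (h : Sys S Λ) {t : K} (ht : t ∉ Cs F K)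
    (l : Fin 3 → K) (hl : ∀ i, l i ∈ Λ) (α : Fin 3 → K) (hα : ∀ i, α i ∈ Cs F K)
    (hm : ∀ i, (t + α i) * l i ∈ Λ) :
    ∃ q : Fin 3 → ℚ, (∃ i, q i ≠ 0) ∧ (∀ i j, q i ≠ 0 → q j ≠ 0 → IsRat (α i - α j)) ∧
      ∑ i, (q i : K) * l i = 0 := by
  refine add_rel h l hl α hα hm (six_dep h ht l hl fun i => ?_)
  have h1 : t * l i = (t + α i) * l i - α i * l i := by ring
  rw [h1]
  exact S.sub_mem (h.sub _ (hm i)) (S_mul (hα i) (h.sub _ (hl i)))

theorem mul_six {S : Submodule F K} {Λ : Submodule ℚ K} (h : Sys S Λ) {t : K} (ht : t ∉ Cs F K)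
    (l : Fin 3 → K) (hl : ∀ i, l i ∈ Λ) (β : Fin 3 → K) (hβ : ∀ i, β i ∈ Cs F K)
    (hβ0 : ∀ i, β i ≠ 0) (hm : ∀ i, β i * t * l i ∈ Λ) :
    ∃ q : Fin 3 → ℚ, (∃ i, q i ≠ 0) ∧ (∀ i j, q i ≠ 0 → q j ≠ 0 → IsRat (β i / β j)) ∧
      ∑ i, (q i : K) * l i = 0 := by
  refine mul_rel h (fun h0 => ht (by rw [h0]; exact (Cs F K).zero_mem)) l hl β hβ hβ0 hm
    (six_dep h ht l hl fun i => ?_)
  have h1 : t * l i = (β i)⁻¹ * (β i * t * l i) := by
    have := hβ0 i
    field_simp
  rw [h1]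
  exact S_mul ((Cs F K).inv_mem (hβ i)) (h.sub _ (hm i))

end Pool.Agent.U979.TS
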