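import Pool.Agent.U979.TS.Core
import Pool.Agent.U979.TW.TowFin

/-!
# Translated slopes: complex and real exponents
-/

set_option autoImplicit false

namespace Pool.Agent.U979.TS

open Finset Pool.Agent.U979.GX Pool.Agent.U979.RG

/-- six exponentials with translated exponents -/
theorem add_cplx {t : ℂ} (ht : Transcendental ℚ t) (α l : Fin 3 → ℂ)
    (hα : ∀ i, IsAlgebraic ℚ (α i)) (hl : ∀ i, IsAlgebraic ℚ (Complex.exp (l i)))
    (hm : ∀ i, IsAlgebraic ℚ (Complex.exp ((t + α i) * l i))) :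
    ∃ q : Fin 3 → ℚ, (∃ i, q i ≠ 0) ∧
      (∀ i j, q i ≠ 0 → q j ≠ 0 → ∃ r : ℚ, (r : ℂ) = α i - α j) ∧ ∑ i, (q i : ℂ) * l i = 0 :=
  add_six sys_complex (fun h => ht (mem_Cs_complex.mp h)) l hl α
    (fun i => mem_Cs_complex.mpr (hα i)) hm

/-- six exponentials with multiplied exponents -/
theorem mul_cplx {t : ℂ} (ht : Transcendental ℚ t) (β l : Fin 3 → ℂ)
    (hβ : ∀ i, IsAlgebraic ℚ (β i)) (hβ0 : ∀ i, β i ≠ 0)
    (hl : ∀ i, IsAlgebraic ℚ (Complex.exp (l i)))
    (hm : ∀ i, IsAlgebraic ℚ (Complex.exp (β i * t * l i))) :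
    ∃ q : Fin 3 → ℚ, (∃ i, q i ≠ 0) ∧
      (∀ i j, q i ≠ 0 → q j ≠ 0 → ∃ r : ℚ, (r : ℂ) = β i / β j) ∧ ∑ i, (q i : ℂ) * l i = 0 :=
  mul_six sys_complex (fun h => ht (mem_Cs_complex.mp h)) l hl β
    (fun i => mem_Cs_complex.mpr (hβ i)) hβ0 hm

/-- the power `a ^ s` in terms of the complex exponential function -/
theorem exp_rpow {a : ℝ} (ha : 0 < a) (s : ℝ) :
    Complex.exp ((s : ℂ) * ((Real.log a : ℝ) : ℂ)) = ((a ^ s : ℝ) : ℂ) := by
  rw [Real.rpow_def_of_pos ha, Complex.ofReal_exp]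
  congr 1
  push_cast
  ring

theorem alg_ofReal {x : ℝ} (h : IsAlgebraic ℚ x) : IsAlgebraic ℚ (x : ℂ) := h.algebraMap (A := ℂ)

theorem trans_ofReal {x : ℝ} (h : Transcendental ℚ x) : Transcendental ℚ (x : ℂ) :=
  fun h1 => h (Pool.Agent.U979.TW.ofReal_alg h1)

/-- a base -/
def Base (a : ℝ) : Prop := 0 < a ∧ a ≠ 1 ∧ IsAlgebraic ℚ a

theorem alg_exp_log {a : ℝ} (ha : Base a) :
    IsAlgebraic ℚ (Complex.exp (((Real.log a : ℝ) : ℂ))) := by
  rw [← Complex.ofReal_exp, Real.exp_log ha.1]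
  exact alg_ofReal ha.2.2

theorem log_ne {a : ℝ} (ha : Base a) : ((Real.log a : ℝ) : ℂ) ≠ 0 :=
  Pool.Agent.U979.TW.log_ne ha.1 ha.2.1

/-- real exponents, translated -/
theorem add_real {t : ℝ} (ht : Transcendental ℚ t) (α a : Fin 3 → ℝ)
    (hα : ∀ i, IsAlgebraic ℚ (α i)) (ha : ∀ i, Base (a i))
    (hne : ∀ i j, i ≠ j → Irrational (α i - α j)) : ∃ i, Transcendental ℚ (a i ^ (t + α i)) := by
  by_contra hcon
  push Not at hcon
  obtain ⟨q, ⟨i, hi⟩, hq, h0⟩ := add_cplx (trans_ofReal ht) (fun i => (α i : ℂ))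
    (fun i => ((Real.log (a i) : ℝ) : ℂ)) (fun i => alg_ofReal (hα i))
    (fun i => alg_exp_log (ha i)) (fun i => by
      have h1 := exp_rpow (ha i).1 (t + α i)
      push_cast at h1
      rw [h1]
      have h2 : IsAlgebraic ℚ (a i ^ (t + α i)) := not_not.mp (hcon i)
      exact alg_ofReal h2)
  have h1 : ∀ j, j ≠ i → q j = 0 := by
    intro j hj
    by_contra hj0
    obtain ⟨r, hr⟩ := hq i j hi hj0
    refine hne i j (Ne.symm hj) ⟨r, ?_⟩
    have h2 : (((r : ℝ) : ℂ)) = ((α i - α j : ℝ) : ℂ) := by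
      push_cast
      exact hr
    exact_mod_cast h2
  rw [Finset.sum_eq_single i (fun j _ hj => by rw [h1 j hj, Rat.cast_zero, zero_mul])
    (fun h => absurd (Finset.mem_univ i) h)] at h0
  rcases mul_eq_zero.mp h0 with h2 | h2
  · exact hi (by exact_mod_cast h2)
  · exact log_ne (ha i) h2

/-- real exponents, multiplied -/
theorem mul_real {t : ℝ} (ht : Transcendental ℚ t) (β a : Fin 3 → ℝ)
    (hβ : ∀ i, IsAlgebraic ℚ (β i)) (hβ0 : ∀ i, β i ≠ 0) (ha : ∀ i, Base (a i))
    (hne : ∀ i j, i ≠ j → Irrational (β i / β j)) : ∃ i, Transcendental ℚ (a i ^ (β i * t)) := by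
  by_contra hcon
  push Not at hcon
  obtain ⟨q, ⟨i, hi⟩, hq, h0⟩ := mul_cplx (trans_ofReal ht) (fun i => (β i : ℂ))
    (fun i => ((Real.log (a i) : ℝ) : ℂ)) (fun i => alg_ofReal (hβ i))
    (fun i => by exact_mod_cast hβ0 i)
    (fun i => alg_exp_log (ha i)) (fun i => by
      have h1 := exp_rpow (ha i).1 (β i * t)
      push_cast at h1
      rw [h1]
      have h2 : IsAlgebraic ℚ (a i ^ (β i * t)) := not_not.mp (hcon i)
      exact alg_ofReal h2)
  have h1 : ∀ j, j ≠ i → q j = 0 := by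
    intro j hj
    by_contra hj0
    obtain ⟨r, hr⟩ := hq i j hi hj0
    refine hne i j (Ne.symm hj) ⟨r, ?_⟩
    have h2 : (((r : ℝ) : ℂ)) = ((β i / β j : ℝ) : ℂ) := by
      push_cast
      exact hr
    exact_mod_cast h2
  rw [Finset.sum_eq_single i (fun j _ hj => by rw [h1 j hj, Rat.cast_zero, zero_mul])
    (fun h => absurd (Finset.mem_univ i) h)] at h0
  rcases mul_eq_zero.mp h0 with h2 | h2
  · exact hi (by exact_mod_cast h2)
  · exact log_ne (ha i) h2

/-- from triples to exceptional classes: given a symmetric relation `R` (the same class) such that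
among three exceptional elements two are related, all exceptional elements related to none of the
elements of a set of at most two elements are not exceptional -/
theorem classes (P : ℝ → Prop) (R : ℝ → ℝ → Prop) (hR : ∀ x y, R x y → R y x)
    (h3 : ∀ x : Fin 3 → ℝ, (∀ i, P (x i)) → ∃ i j, i ≠ j ∧ ¬ R (x i) (x j)) :
    ∃ E : Finset ℝ, E.card ≤ 2 ∧ (∀ ε ∈ E, P ε) ∧ ∀ α, (∀ ε ∈ E, R α ε) → ¬ P α := by
  classical
  by_cases h1 : ∃ x, P x
  · obtain ⟨x, hx⟩ := h1
    by_cases h2 : ∃ y, P y ∧ R y x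
    · obtain ⟨y, hy, hyx⟩ := h2
      refine ⟨{x, y}, Finset.card_le_two, ?_, fun α hα hP => ?_⟩
      · intro ε hε
        rcases Finset.mem_insert.mp hε with rfl | h
        · exact hx
        · rw [Finset.mem_singleton] at h
          rw [h]
          exact hy
      · obtain ⟨i, j, hij, hn⟩ := h3 ![x, y, α] (fun i => by
          fin_cases i
          · exact hx
          · exact hy
          · exact hP)
        apply hn
        have ha1 := hα x (by simp)
        have ha2 := hα y (by simp)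
        fin_cases i <;> fin_cases j <;>
          first
          | exact absurd rfl hij
          | exact ha1
          | exact ha2
          | exact hR _ _ ha1
          | exact hR _ _ ha2
          | exact hyx
          | exact hR _ _ hyx
    · refine ⟨{x}, by simp, ?_, fun α hα hP => ?_⟩
      · intro ε hε
        rw [Finset.mem_singleton] at hε
        rw [hε]
        exact hx
      · exact h2 ⟨α, hP, hα x (Finset.mem_singleton_self x)⟩
  · exact ⟨∅, by simp, by simp, fun α _ hP => h1 ⟨α, hP⟩⟩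

end Pool.Agent.U979.TS
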