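import Pool.Agent.U979.TS.Cplx

/-!
# Translated slopes: two multiplicatively independent bases
-/

set_option autoImplicit false
namespace Pool.Agent.U979.TS

/-- multiplicatively independent numbers have independent logarithms -/
theorem log_indep {a b : ℝ} (ha : 0 < a) (hb : 0 < b)
    (hab : ∀ m n : ℤ, a ^ m * b ^ n = 1 → m = 0 ∧ n = 0) {p q : ℚ}
    (h : (p : ℂ) * ((Real.log a : ℝ) : ℂ) + (q : ℂ) * ((Real.log b : ℝ) : ℂ) = 0) :
    p = 0 ∧ q = 0 := by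
  have h1 : (p : ℝ) * Real.log a + q * Real.log b = 0 := by exact_mod_cast h
  have hp : ((p.num : ℤ) : ℝ) = p * p.den := by
    have h2 := Rat.mul_den_eq_num p
    have h3 : ((p * p.den : ℚ) : ℝ) = ((p.num : ℚ) : ℝ) := by rw [h2]
    push_cast at h3
    exact h3.symm
  have hq : ((q.num : ℤ) : ℝ) = q * q.den := by
    have h2 := Rat.mul_den_eq_num q
    have h3 : ((q * q.den : ℚ) : ℝ) = ((q.num : ℚ) : ℝ) := by rw [h2]
    push_cast at h3
    exact h3.symm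
  have h2 : a ^ (p.num * q.den) * b ^ (q.num * p.den) = 1 := by
    have h3 : Real.log (a ^ (p.num * q.den) * b ^ (q.num * p.den)) = 0 := by
      rw [Real.log_mul (zpow_ne_zero _ ha.ne') (zpow_ne_zero _ hb.ne'), Real.log_zpow,
        Real.log_zpow]
      push_cast
      rw [hp, hq]
      linear_combination (p.den * q.den : ℝ) * h1
    exact Real.eq_one_of_pos_of_log_eq_zero (mul_pos (zpow_pos ha _) (zpow_pos hb _)) h3
  obtain ⟨h3, h4⟩ := hab _ _ h2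
  have hpd : (p.den : ℤ) ≠ 0 := by exact_mod_cast p.den_nz
  have hqd : (q.den : ℤ) ≠ 0 := by exact_mod_cast q.den_nz
  exact ⟨Rat.num_eq_zero.mp ((mul_eq_zero.mp h3).resolve_right hqd),
    Rat.num_eq_zero.mp ((mul_eq_zero.mp h4).resolve_right hpd)⟩

theorem rat_of_cast {x y : ℝ} (h : ∃ r : ℚ, (r : ℂ) = (x : ℂ) - (y : ℂ)) :
    ∃ q : ℚ, x = y + q := by
  obtain ⟨r, hr⟩ := h
  refine ⟨r, ?_⟩
  have h2 : (((r : ℝ) : ℂ)) = ((x - y : ℝ) : ℂ) := by
    push_cast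
    exact hr
  have h3 : (r : ℝ) = x - y := by exact_mod_cast h2
  rw [h3]
  ring

theorem rat_of_div {x y : ℝ} (hy : y ≠ 0) (h : ∃ r : ℚ, (r : ℂ) = (x : ℂ) / (y : ℂ)) :
    ∃ q : ℚ, x = q * y := by
  obtain ⟨r, hr⟩ := h
  refine ⟨r, ?_⟩
  have h2 : (((r : ℝ) : ℂ)) = ((x / y : ℝ) : ℂ) := by
    push_cast
    exact hr
  have h3 : (r : ℝ) = x / y := by exact_mod_cast h2
  rw [h3]
  field_simp

theorem add_rank {t : ℝ} (ht : Transcendental ℚ t) {α₀ α a b c : ℝ} (h0 : IsAlgebraic ℚ α₀)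
    (h1 : IsAlgebraic ℚ α) (ha : Base a) (hb : Base b) (hc : Base c)
    (hab : ∀ m n : ℤ, a ^ m * b ^ n = 1 → m = 0 ∧ n = 0)
    (h2 : IsAlgebraic ℚ (a ^ (t + α₀))) (h3 : IsAlgebraic ℚ (b ^ (t + α₀)))
    (h4 : IsAlgebraic ℚ (c ^ (t + α))) : ∃ q : ℚ, α = α₀ + q := by
  have hx : ∀ {x s : ℝ}, Base x → IsAlgebraic ℚ (x ^ (t + s)) →
      IsAlgebraic ℚ (Complex.exp (((t : ℂ) + (s : ℂ)) * ((Real.log x : ℝ) : ℂ))) := by
    intro x s hx h
    have h5 := exp_rpow hx.1 (t + s)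
    push_cast at h5
    rw [h5]
    exact alg_ofReal h
  obtain ⟨q, ⟨i, hi⟩, hq, hs⟩ := add_cplx (trans_ofReal ht) ![(α₀ : ℂ), (α₀ : ℂ), (α : ℂ)]
    ![((Real.log a : ℝ) : ℂ), ((Real.log b : ℝ) : ℂ), ((Real.log c : ℝ) : ℂ)]
    (by intro i; fin_cases i; exacts [alg_ofReal h0, alg_ofReal h0, alg_ofReal h1])
    (by intro i; fin_cases i; exacts [alg_exp_log ha, alg_exp_log hb, alg_exp_log hc])
    (by intro i; fin_cases i; exacts [hx ha h2, hx hb h3, hx hc h4])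
  rw [Fin.sum_univ_three] at hs
  simp only [Matrix.cons_val_zero, Matrix.cons_val_one, Matrix.cons_val] at hs
  by_cases h5 : q 2 = 0
  · rw [h5, Rat.cast_zero, zero_mul, add_zero] at hs
    obtain ⟨h6, h7⟩ := log_indep ha.1 hb.1 hab hs
    exfalso
    fin_cases i
    exacts [hi h6, hi h7, hi h5]
  · by_cases h6 : q 0 = 0
    · by_cases h7 : q 1 = 0
      · rw [h6, h7, Rat.cast_zero, zero_mul, zero_mul, zero_add, zero_add] at hs
        rcases mul_eq_zero.mp hs with h8 | h8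
        · exact absurd (by exact_mod_cast h8) h5
        · exact absurd h8 (log_ne hc)
      · exact rat_of_cast (hq 2 1 h5 h7)
    · exact rat_of_cast (hq 2 0 h5 h6)

theorem mul_rank {t : ℝ} (ht : Transcendental ℚ t) {β₀ β a b c : ℝ} (h0 : IsAlgebraic ℚ β₀)
    (n0 : β₀ ≠ 0) (h1 : IsAlgebraic ℚ β) (n1 : β ≠ 0) (ha : Base a) (hb : Base b) (hc : Base c)
    (hab : ∀ m n : ℤ, a ^ m * b ^ n = 1 → m = 0 ∧ n = 0)
    (h2 : IsAlgebraic ℚ (a ^ (β₀ * t))) (h3 : IsAlgebraic ℚ (b ^ (β₀ * t)))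
    (h4 : IsAlgebraic ℚ (c ^ (β * t))) : ∃ q : ℚ, β = q * β₀ := by
  have hx : ∀ {x s : ℝ}, Base x → IsAlgebraic ℚ (x ^ (s * t)) →
      IsAlgebraic ℚ (Complex.exp ((s : ℂ) * (t : ℂ) * ((Real.log x : ℝ) : ℂ))) := by
    intro x s hx h
    have h5 := exp_rpow hx.1 (s * t)
    push_cast at h5
    rw [h5]
    exact alg_ofReal h
  have c0 : (β₀ : ℂ) ≠ 0 := by exact_mod_cast n0
  have c1 : (β : ℂ) ≠ 0 := by exact_mod_cast n1
  obtain ⟨q, ⟨i, hi⟩, hq, hs⟩ := mul_cplx (trans_ofReal ht) ![(β₀ : ℂ), (β₀ : ℂ), (β : ℂ)]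
    ![((Real.log a : ℝ) : ℂ), ((Real.log b : ℝ) : ℂ), ((Real.log c : ℝ) : ℂ)]
    (by intro i; fin_cases i; exacts [alg_ofReal h0, alg_ofReal h0, alg_ofReal h1])
    (by intro i; fin_cases i; exacts [c0, c0, c1])
    (by intro i; fin_cases i; exacts [alg_exp_log ha, alg_exp_log hb, alg_exp_log hc])
    (by intro i; fin_cases i; exacts [hx ha h2, hx hb h3, hx hc h4])
  rw [Fin.sum_univ_three] at hs
  simp only [Matrix.cons_val_zero, Matrix.cons_val_one, Matrix.cons_val] at hs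
  by_cases h5 : q 2 = 0
  · rw [h5, Rat.cast_zero, zero_mul, add_zero] at hs
    obtain ⟨h6, h7⟩ := log_indep ha.1 hb.1 hab hs
    exfalso
    fin_cases i
    exacts [hi h6, hi h7, hi h5]
  · by_cases h6 : q 0 = 0
    · by_cases h7 : q 1 = 0
      · rw [h6, h7, Rat.cast_zero, zero_mul, zero_mul, zero_add, zero_add] at hs
        rcases mul_eq_zero.mp hs with h8 | h8
        · exact absurd (by exact_mod_cast h8) h5
        · exact absurd h8 (log_ne hc)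
      · exact rat_of_div n0 (hq 2 1 h5 h7)
    · exact rat_of_div n0 (hq 2 0 h5 h6)

end Pool.Agent.U979.TS
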